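import Pool.Agent.P.MP_12d50c_ag.BT.All

open CategoryTheory AlgebraicGeometry TensorProduct
open Pool.Agent.P.MP_12d50c_ag

namespace Pool.Agent.Results.MP_12d50c_ag.BassTateStable

/-- For a field `F` of characteristic `p` and transcendence degree at most `d` over the prime field,
Bloch's higher Chow group `CH^n(F, n)` has rank zero once `n ≥ 4 (d + 1)^(d + 1) (4 d + 1)`. -/
theorem result (p : ℕ) [Fact p.Prime] (F : Type) [Field F] [Algebra (ZMod p) F] (d n : ℕ)
    (hd : Algebra.trdeg (ZMod p) F ≤ d) (hn : 4 * ((d + 1) ^ (d + 1) * (4 * d + 1)) ≤ n) :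
    Module.rank ℚ (ℚ ⊗[ℤ] CH (Spec (CommRingCat.of F)) n n) = 0 :=
  BT.t_MAIN p F d n hd hn

end Pool.Agent.Results.MP_12d50c_ag.BassTateStable
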