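import Pool.Agent.P.MP_12d50c_ag.Z.AllZ

open CategoryTheory AlgebraicGeometry TensorProduct
open Pool.Agent.P.MP_12d50c_ag Pool.Agent.P.MP_90138e_ag

namespace Pool.Agent.Results.MP_12d50c_ag.OpenFinite

/-- For every open subscheme `U` of a smooth projective geometrically integral variety of
dimension `d` over a finite field, Bloch's higher Chow group `CH^d(U, 1)` has finite rank. -/
theorem result (F : Type) [Field F] [Finite F] (d : ℕ) (X : Over (Spec (CommRingCat.of F)))
    [SmoothOfRelativeDimension d X.hom] [GeometricallyIntegral X.hom] (h : IsProjective X)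
    (U : X.left.Opens) :
    Module.rank ℚ (ℚ ⊗[ℤ] CH (U : Scheme.{0}) d 1) < Cardinal.aleph0 :=
  main_fin b_TAL b_SMX b_BRD b_TOPU b_OPB b_C0 F d X h U

end Pool.Agent.Results.MP_12d50c_ag.OpenFinite
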